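import Pool.Agent.W978.QP.Stm

/-!
Project QP, part IVA: the cross product in terms of the coordinates with respect to the kernel
vectors.
-/

namespace Pool.Agent.W284.QP.IVA

open Pool.Agent.W978.QP
open Pool.Agent.W978.QN (nm bx ct cp mnr wv Prim)

theorem ne1 : ∀ i : Fin 3, i ≠ i + 1 := by decide

theorem ne2 : ∀ i : Fin 3, i ≠ i + 2 := by decide

theorem ne12 : ∀ i : Fin 3, i + 1 ≠ i + 2 := by decide

theorem third : ∀ i j k l : Fin 3, i ≠ j → i ≠ k → j ≠ k → l ≠ i → l = j ∨ l = k := by decide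

theorem dpcr (u v w : Fin 3 → ℂ) (a b c a' b' c' : ℂ) :
    dp (cr (fun l => a * u l + b * v l + c * w l) (fun l => a' * u l + b' * v l + c' * w l)) w
      = (a * b' - a' * b) * dp (cr u v) w := by
  simp [dp, cr, Fin.sum_univ_three]
  ring

theorem est (u v w : Fin 3 → ℂ) (s t s' t' s'' t'' : ℂ) (hd : dp (cr u v) w ≠ 0)
    (hst : s * t' - t * s' ≠ 0) : ∃ c : ℝ, 0 < c ∧ ∀ (y y' y'' : ℂ) (N : ℝ),
    (∀ l, ‖cr (fun l => t * y * u l + t' * y' * v l + t'' * y'' * w l)
      (fun l => -(s * y) * u l + -(s' * y') * v l + -(s'' * y'') * w l) l‖ ≤ N) →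
    c * (‖y‖ * ‖y'‖) ≤ N := by
  have hS : 0 ≤ ∑ l, ‖w l‖ := Finset.sum_nonneg fun l _ => norm_nonneg _
  refine ⟨‖s * t' - t * s'‖ * ‖dp (cr u v) w‖ / (∑ l, ‖w l‖ + 1), ?_, ?_⟩
  · have h1 := norm_pos_iff.2 hd
    have h2 := norm_pos_iff.2 hst
    positivity
  · intro y y' y'' N hN
    have hN0 : 0 ≤ N := le_trans (norm_nonneg _) (hN 0)
    have e := dpcr u v w (t * y) (t' * y') (t'' * y'') (-(s * y)) (-(s' * y')) (-(s'' * y''))
    have e2 : (t * y * (-(s' * y')) - -(s * y) * (t' * y')) * dp (cr u v) w =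
        (y * y') * ((s * t' - t * s') * dp (cr u v) w) := by ring
    rw [e2] at e
    have h3 : ‖dp (cr (fun l => t * y * u l + t' * y' * v l + t'' * y'' * w l)
      (fun l => -(s * y) * u l + -(s' * y') * v l + -(s'' * y'') * w l)) w‖ ≤
        N * ∑ l, ‖w l‖ := by
      unfold dp
      refine (norm_sum_le _ _).trans ?_
      rw [Finset.mul_sum]
      refine Finset.sum_le_sum fun l _ => ?_
      rw [norm_mul]
      exact mul_le_mul_of_nonneg_right (hN l) (norm_nonneg _)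
    rw [e, norm_mul, norm_mul, norm_mul] at h3
    rw [div_mul_eq_mul_div, div_le_iff₀ (by positivity)]
    nlinarith [mul_nonneg hN0 hS]

theorem core (A B : Matrix (Fin 3) (Fin 3) ℂ) (p : Fin 2 → ℂ)
    (hp : (p 0 • A + p 1 • B).det ≠ 0) (P : Fin 3 → Fin 2 → ℂ)
    (hP : ∀ i, (P i 0 • A + P i 1 • B).det = 0)
    (hPP : ∀ i j, i ≠ j → P i 0 * P j 1 - P i 1 * P j 0 ≠ 0) :
    ∃ (v u : Fin 3 → Fin 3 → ℂ), (Matrix.of fun k i => v i k).det ≠ 0 ∧
      (Matrix.of fun k i => u i k).det ≠ 0 ∧ (∀ i, A.mulVec (v i) = P i 1 • u i) ∧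
      (∀ i, B.mulVec (v i) = -(P i 0) • u i) := by
  choose v hv0 hv using fun i => Matrix.exists_mulVec_eq_zero_iff.mpr (hP i)
  have hrel : ∀ i, P i 0 • A.mulVec (v i) + P i 1 • B.mulVec (v i) = 0 := by
    intro i
    have := hv i
    rwa [Matrix.add_mulVec, Matrix.smul_mulVec, Matrix.smul_mulVec] at this
  have hne : ∀ i, P i 0 ≠ 0 ∨ P i 1 ≠ 0 := by
    intro i
    by_contra h
    push Not at h
    have h2 := hPP i (i + 1) (ne1 i)
    rw [h.1, h.2] at h2
    simp at h2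
  have hu : ∀ i, ∃ u : Fin 3 → ℂ, A.mulVec (v i) = P i 1 • u ∧
      B.mulVec (v i) = -(P i 0) • u := by
    intro i
    have hr := hrel i
    by_cases h1 : P i 1 = 0
    · have h0 : P i 0 ≠ 0 := by
        rcases hne i with h | h
        · exact h
        · exact absurd h1 h
      refine ⟨-((P i 0)⁻¹ • B.mulVec (v i)), ?_, ?_⟩
      · rw [h1, zero_smul, add_zero] at hr
        rw [h1, zero_smul]
        exact (smul_eq_zero.1 hr).resolve_left h0
      · rw [smul_neg, neg_smul, neg_neg, smul_smul, mul_inv_cancel₀ h0, one_smul]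
    · refine ⟨(P i 1)⁻¹ • A.mulVec (v i), ?_, ?_⟩
      · rw [smul_smul, mul_inv_cancel₀ h1, one_smul]
      · have h2 : P i 1 • B.mulVec (v i) = -(P i 0 • A.mulVec (v i)) := by
          rw [eq_neg_iff_add_eq_zero, add_comm]
          exact hr
        have h3 : B.mulVec (v i) = (P i 1)⁻¹ • (P i 1 • B.mulVec (v i)) := by
          rw [smul_smul, inv_mul_cancel₀ h1, one_smul]
        rw [h3, h2, smul_neg, neg_smul, smul_smul, smul_smul, mul_comm]
  choose u hA hB using hu
  have hinj : ∀ w, (p 0 • A + p 1 • B).mulVec w = 0 → w = 0 := fun w hw =>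
    Matrix.eq_zero_of_mulVec_eq_zero hp hw
  have hM : ∀ i, (p 0 • A + p 1 • B).mulVec (v i) = (p 0 * P i 1 - p 1 * P i 0) • u i := by
    intro i
    rw [Matrix.add_mulVec, Matrix.smul_mulVec, Matrix.smul_mulVec, hA, hB, smul_smul, smul_smul,
      ← add_smul]
    congr 1
    ring
  have hD : ∀ i, p 0 * P i 1 - p 1 * P i 0 ≠ 0 := by
    intro i h
    have := hM i
    rw [h, zero_smul] at this
    exact hv0 i (hinj _ this)
  have hMs : ∀ y : Fin 3 → ℂ, (p 0 • A + p 1 • B).mulVec (∑ i, y i • v i) =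
      ∑ i, (y i * (p 0 * P i 1 - p 1 * P i 0)) • u i := by
    intro y
    rw [Matrix.mulVec_sum]
    refine Finset.sum_congr rfl fun i _ => ?_
    rw [Matrix.mulVec_smul, hM, smul_smul]
  have key : ∀ y : Fin 3 → ℂ, ∑ i, y i • v i = 0 → ∀ j : Fin 3,
      ∑ i, (y i * ((P j 0 * P i 1 - P j 1 * P i 0) / (p 0 * P i 1 - p 1 * P i 0))) • v i = 0 := by
    intro y hy j
    apply hinj
    have e := hMs fun i => y i * ((P j 0 * P i 1 - P j 1 * P i 0) / (p 0 * P i 1 - p 1 * P i 0))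
    rw [e]
    have eA : ∑ i, (y i * P i 1) • u i = 0 := by
      have := congrArg A.mulVec hy
      rw [Matrix.mulVec_sum, Matrix.mulVec_zero] at this
      rw [← this]
      refine Finset.sum_congr rfl fun i _ => ?_
      rw [Matrix.mulVec_smul, hA, smul_smul]
    have eB : ∑ i, (y i * -(P i 0)) • u i = 0 := by
      have := congrArg B.mulVec hy
      rw [Matrix.mulVec_sum, Matrix.mulVec_zero] at this
      rw [← this]
      refine Finset.sum_congr rfl fun i _ => ?_
      rw [Matrix.mulVec_smul, hB, smul_smul]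
    have e3 : P j 0 • (∑ i, (y i * P i 1) • u i) + P j 1 • (∑ i, (y i * -(P i 0)) • u i) = 0 := by
      rw [eA, eB, smul_zero, smul_zero, add_zero]
    rw [← e3, Finset.smul_sum, Finset.smul_sum, ← Finset.sum_add_distrib]
    refine Finset.sum_congr rfl fun i _ => ?_
    rw [smul_smul, smul_smul, ← add_smul]
    congr 1
    rw [mul_assoc (y i), div_mul_cancel₀ _ (hD i)]
    ring
  have hind : ∀ y : Fin 3 → ℂ, ∑ i, y i • v i = 0 → ∀ i, y i = 0 := by
    intro y hy
    have hfin : ∀ i j k : Fin 3, i ≠ j → i ≠ k → j ≠ k → y i = 0 := by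
      intro i j k hij hik hjk
      have h0 := key _ (key y hy j) k
      rw [← Finset.add_sum_erase _ _ (Finset.mem_univ i)] at h0
      have h1 : ∑ l ∈ (Finset.univ : Finset (Fin 3)).erase i,
          (y l * ((P j 0 * P l 1 - P j 1 * P l 0) / (p 0 * P l 1 - p 1 * P l 0)) *
            ((P k 0 * P l 1 - P k 1 * P l 0) / (p 0 * P l 1 - p 1 * P l 0))) • v l = 0 := by
        refine Finset.sum_eq_zero fun l hl => ?_
        have hl' : l = j ∨ l = k := third i j k l hij hik hjk (Finset.mem_erase.1 hl).1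
        rcases hl' with rfl | rfl
        · have : P l 0 * P l 1 - P l 1 * P l 0 = 0 := by ring
          rw [this]
          simp
        · have : P l 0 * P l 1 - P l 1 * P l 0 = 0 := by ring
          rw [this]
          simp
      rw [h1, add_zero] at h0
      have h2 := (smul_eq_zero.1 h0).resolve_right (hv0 i)
      have n1 := hPP j i hij.symm
      have n2 := hPP k i hik.symm
      have n3 := hD i
      simpa [n1, n2, n3] using h2
    intro i
    exact hfin i (i + 1) (i + 2) (ne1 i) (ne2 i) (ne12 i)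
  have hmv : ∀ (w : Fin 3 → Fin 3 → ℂ) (y : Fin 3 → ℂ),
      (Matrix.of fun k i => w i k).mulVec y = ∑ i, y i • w i := by
    intro w y
    ext k
    simp [Matrix.mulVec, dotProduct, Finset.sum_apply, mul_comm]
  refine ⟨v, u, ?_, ?_, hA, hB⟩
  · intro h
    obtain ⟨y, hy0, hy⟩ := Matrix.exists_mulVec_eq_zero_iff.mpr h
    rw [hmv] at hy
    exact hy0 (funext fun i => hind y hy i)
  · intro h
    obtain ⟨y, hy0, hy⟩ := Matrix.exists_mulVec_eq_zero_iff.mpr h
    rw [hmv] at hy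
    have e := hMs fun i => y i / (p 0 * P i 1 - p 1 * P i 0)
    have e2 : ∑ i, (y i / (p 0 * P i 1 - p 1 * P i 0) * (p 0 * P i 1 - p 1 * P i 0)) • u i = 0 := by
      rw [← hy]
      refine Finset.sum_congr rfl fun i _ => ?_
      rw [div_mul_cancel₀ _ (hD i)]
    rw [e2] at e
    have h3 := hind _ (hinj _ e)
    refine hy0 (funext fun i => ?_)
    have h4 := h3 i
    have h5 := hD i
    simpa [h5] using h4

theorem castcr (b : Fin 2 → Fin 3 → Fin 3 → ℤ) (q : Fin 3 → ℤ) (l : Fin 3) :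
    cr (av b 0 (fun k => (q k : ℂ))) (av b 1 (fun k => (q k : ℂ))) l =
      ((cr (av b 0 q) (av b 1 q) l : ℤ) : ℂ) := by
  fin_cases l <;> simp [cr, av, Fin.sum_univ_three]

theorem nmle (v : Fin 3 → ℤ) (l : Fin 3) : |v l| ≤ nm v := by
  unfold nm
  fin_cases l <;> simp

theorem main : S_IVA := by
  intro b ⟨p, hp⟩ ⟨P, hP, hPP⟩
  set A : Matrix (Fin 3) (Fin 3) ℂ := Matrix.of fun k j => (b 0 j k : ℂ) with hA0
  set B : Matrix (Fin 3) (Fin 3) ℂ := Matrix.of fun k j => (b 1 j k : ℂ) with hB0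
  have hmp : ∀ x : Fin 2 → ℂ, Matrix.of (mp b x) = x 0 • A + x 1 • B := by
    intro x
    ext k j
    simp [mp, A, B, mul_comm]
  rw [hmp] at hp
  have hP' : ∀ i, (P i 0 • A + P i 1 • B).det = 0 := fun i => by
    rw [← hmp]
    exact hP i
  obtain ⟨v, u, hv, hu, hA, hB⟩ := core A B p hp P hP' hPP
  have hdet := hu
  rw [Matrix.det_fin_three] at hdet
  simp only [Matrix.of_apply] at hdet
  have d1 : dp (cr (u 0) (u 1)) (u 2) ≠ 0 := by
    intro h
    apply hdet
    simp [dp, cr, Fin.sum_univ_three] at h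
    linear_combination h
  have d2 : dp (cr (u 0) (u 2)) (u 1) ≠ 0 := by
    intro h
    apply hdet
    simp [dp, cr, Fin.sum_univ_three] at h
    linear_combination -h
  have d3 : dp (cr (u 1) (u 2)) (u 0) ≠ 0 := by
    intro h
    apply hdet
    simp [dp, cr, Fin.sum_univ_three] at h
    linear_combination h
  obtain ⟨c1, hc1, H1⟩ := est (u 0) (u 1) (u 2) (P 0 0) (P 0 1) (P 1 0) (P 1 1) (P 2 0) (P 2 1)
    d1 (hPP 0 1 (by decide))
  obtain ⟨c2, hc2, H2⟩ := est (u 0) (u 2) (u 1) (P 0 0) (P 0 1) (P 2 0) (P 2 1) (P 1 0) (P 1 1)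
    d2 (hPP 0 2 (by decide))
  obtain ⟨c3, hc3, H3⟩ := est (u 1) (u 2) (u 0) (P 1 0) (P 1 1) (P 2 0) (P 2 1) (P 0 0) (P 0 1)
    d3 (hPP 1 2 (by decide))
  set V : Matrix (Fin 3) (Fin 3) ℂ := Matrix.of fun k i => v i k with hV
  have hVu : IsUnit V.det := isUnit_iff_ne_zero.2 hv
  refine ⟨min c1 (min c2 c3), fun i k => V⁻¹ i k, lt_min hc1 (lt_min hc2 hc3), ?_, ?_⟩
  · show (V⁻¹).det ≠ 0
    rw [Matrix.det_nonsing_inv, Ring.inverse_eq_inv']
    exact inv_ne_zero hv
  · intro q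
    set qc : Fin 3 → ℂ := fun k => (q k : ℂ) with hqc
    set y : Fin 3 → ℂ := V⁻¹.mulVec qc with hy
    have hyi : ∀ i, ∑ k, V⁻¹ i k * (q k : ℂ) = y i := fun i => rfl
    have hVy : qc = ∑ i, y i • v i := by
      have h1 : V.mulVec y = qc := by
        rw [hy, Matrix.mulVec_mulVec, Matrix.mul_nonsing_inv V hVu, Matrix.one_mulVec]
      rw [← h1]
      ext k
      simp [Matrix.mulVec, dotProduct, Finset.sum_apply, mul_comm, V]
    have hAq : av b 0 qc = A.mulVec qc := by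
      ext k
      simp [av, Matrix.mulVec, dotProduct, A]
    have hBq : av b 1 qc = B.mulVec qc := by
      ext k
      simp [av, Matrix.mulVec, dotProduct, B]
    have hAq2 : ∀ l, av b 0 qc l = P 0 1 * y 0 * u 0 l + P 1 1 * y 1 * u 1 l +
        P 2 1 * y 2 * u 2 l := by
      intro l
      rw [hAq, hVy, Matrix.mulVec_sum, Fin.sum_univ_three, Matrix.mulVec_smul,
        Matrix.mulVec_smul, Matrix.mulVec_smul, hA, hA, hA]
      simp only [Pi.add_apply, Pi.smul_apply, smul_eq_mul]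
      ring
    have hBq2 : ∀ l, av b 1 qc l = -(P 0 0 * y 0) * u 0 l + -(P 1 0 * y 1) * u 1 l +
        -(P 2 0 * y 2) * u 2 l := by
      intro l
      rw [hBq, hVy, Matrix.mulVec_sum, Fin.sum_univ_three, Matrix.mulVec_smul,
        Matrix.mulVec_smul, Matrix.mulVec_smul, hB, hB, hB]
      simp only [Pi.add_apply, Pi.smul_apply, smul_eq_mul]
      ring
    have hN : ∀ l, ‖cr (av b 0 qc) (av b 1 qc) l‖ ≤
        ((nm (cr (av b 0 q) (av b 1 q)) : ℤ) : ℝ) := by
      intro l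
      rw [castcr, Complex.norm_intCast]
      exact_mod_cast nmle _ l
    have G1 : c1 * (‖y 0‖ * ‖y 1‖) ≤ ((nm (cr (av b 0 q) (av b 1 q)) : ℤ) : ℝ) := by
      apply H1 (y 0) (y 1) (y 2)
      intro l
      have e1 : (fun l => P 0 1 * y 0 * u 0 l + P 1 1 * y 1 * u 1 l + P 2 1 * y 2 * u 2 l) =
        av b 0 qc := funext fun l => by rw [hAq2]
      have e2 : (fun l => -(P 0 0 * y 0) * u 0 l + -(P 1 0 * y 1) * u 1 l +
        -(P 2 0 * y 2) * u 2 l) = av b 1 qc := funext fun l => by rw [hBq2]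
      rw [e1, e2]
      exact hN l
    have G2 : c2 * (‖y 0‖ * ‖y 2‖) ≤ ((nm (cr (av b 0 q) (av b 1 q)) : ℤ) : ℝ) := by
      apply H2 (y 0) (y 2) (y 1)
      intro l
      have e1 : (fun l => P 0 1 * y 0 * u 0 l + P 2 1 * y 2 * u 2 l + P 1 1 * y 1 * u 1 l) =
        av b 0 qc := funext fun l => by rw [hAq2]; ring
      have e2 : (fun l => -(P 0 0 * y 0) * u 0 l + -(P 2 0 * y 2) * u 2 l +
        -(P 1 0 * y 1) * u 1 l) = av b 1 qc := funext fun l => by rw [hBq2]; ring
      rw [e1, e2]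
      exact hN l
    have G3 : c3 * (‖y 1‖ * ‖y 2‖) ≤ ((nm (cr (av b 0 q) (av b 1 q)) : ℤ) : ℝ) := by
      apply H3 (y 1) (y 2) (y 0)
      intro l
      have e1 : (fun l => P 1 1 * y 1 * u 1 l + P 2 1 * y 2 * u 2 l + P 0 1 * y 0 * u 0 l) =
        av b 0 qc := funext fun l => by rw [hAq2]; ring
      have e2 : (fun l => -(P 1 0 * y 1) * u 1 l + -(P 2 0 * y 2) * u 2 l +
        -(P 0 0 * y 0) * u 0 l) = av b 1 qc := funext fun l => by rw [hBq2]; ring
      rw [e1, e2]
      exact hN l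
    have m1 : min c1 (min c2 c3) ≤ c1 := min_le_left _ _
    have m2 : min c1 (min c2 c3) ≤ c2 := (min_le_right _ _).trans (min_le_left _ _)
    have m3 : min c1 (min c2 c3) ≤ c3 := (min_le_right _ _).trans (min_le_right _ _)
    have K1 := (mul_le_mul_of_nonneg_right m1
      (mul_nonneg (norm_nonneg (y 0)) (norm_nonneg (y 1)))).trans G1
    have K2 := (mul_le_mul_of_nonneg_right m2
      (mul_nonneg (norm_nonneg (y 0)) (norm_nonneg (y 2)))).trans G2
    have K3 := (mul_le_mul_of_nonneg_right m3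
      (mul_nonneg (norm_nonneg (y 1)) (norm_nonneg (y 2)))).trans G3
    have K : ∀ i j : Fin 3, i ≠ j → min c1 (min c2 c3) * (‖y i‖ * ‖y j‖) ≤
        ((nm (cr (av b 0 q) (av b 1 q)) : ℤ) : ℝ) := by
      intro i j hij
      fin_cases i <;> fin_cases j
      · exact absurd rfl hij
      · exact K1
      · exact K2
      · rw [mul_comm ‖y _‖]; exact K1
      · exact absurd rfl hij
      · exact K3
      · rw [mul_comm ‖y _‖]; exact K2
      · rw [mul_comm ‖y _‖]; exact K3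
      · exact absurd rfl hij
    intro i j hij
    exact K i j hij

end Pool.Agent.W284.QP.IVA
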